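import Pool.Agent.W2helper31.GP.Stm

set_option autoImplicit false

/-!
# Project GP, piece ONE: the numerical assembly
-/

open MeasureTheory ProbabilityTheory

namespace Pool.Agent.W2helper68.GP

open Pool.Agent.W2helper31.GP

lemma exp_85 : Real.exp (8 / 5) ≤ 496 / 100 := by
  have h1 : Real.exp 1 < 2.7182818286 := Real.exp_one_lt_d9
  have h0 : (0:ℝ) < Real.exp 1 := Real.exp_pos 1
  have h2 : Real.exp (8 / 5) ^ 5 = Real.exp 1 ^ 8 := by
    rw [← Real.exp_nat_mul, ← Real.exp_nat_mul]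
    congr 1
    norm_num
  have h3 : Real.exp 1 ^ 8 ≤ 2.7182818286 ^ 8 := pow_le_pow_left₀ h0.le h1.le 8
  have h4 : (2.7182818286 : ℝ) ^ 8 ≤ (496 / 100) ^ 5 := by norm_num
  exact le_of_pow_le_pow_left₀ (n := 5) (by norm_num) (by norm_num) (by rw [h2]; exact h3.trans h4)

/-- convexity of `exp` on `[0, 8/5]` -/
lemma exp_conv {x : ℝ} (h0 : 0 ≤ x) (h1 : x ≤ 8 / 5) : Real.exp x ≤ 1 + 99 / 40 * x := by
  have hc := (convexOn_exp).2 (Set.mem_univ (0:ℝ)) (Set.mem_univ (8 / 5 : ℝ))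
    (show 0 ≤ 1 - 5 / 8 * x by linarith) (show 0 ≤ 5 / 8 * x by linarith) (by ring)
  simp only [smul_eq_mul, mul_zero, zero_add, Real.exp_zero, mul_one] at hc
  have e : 5 / 8 * x * (8 / 5) = x := by ring
  rw [e] at hc
  have h2 := exp_85
  have h3 : 5 / 8 * x * Real.exp (8 / 5) ≤ 5 / 8 * x * (496 / 100) :=
    mul_le_mul_of_nonneg_left h2 (by linarith)
  linarith

theorem p_ONE : P_KAP → P_SMALL → P_MIDL → P_ONE := by
  intro hK hS hM nu h0
  obtain ⟨-, hk⟩ := hK
  have hr : Real.exp (kap * nu) * (1 + 14 * nu) ^ nu =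
      (Real.exp kap * (1 + 14 * nu)) ^ nu := by
    rw [Real.exp_mul, Real.mul_rpow (Real.exp_pos _).le (by linarith)]
  have hek : 100 / 496 ≤ Real.exp kap := by
    have h1 : Real.exp (-(8 / 5)) ≤ Real.exp kap := Real.exp_le_exp.2 hk
    have h2 : (100 / 496 : ℝ) ≤ Real.exp (-(8 / 5)) := by
      rw [Real.exp_neg, ← one_div, le_div_iff₀ (Real.exp_pos _)]
      have := exp_85
      linarith
    exact h2.trans h1
  rcases le_total nu (29 / 100) with h1 | h1
  · obtain ⟨-, h2⟩ := hS nu h0 (by linarith)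
    refine h2.trans ?_
    have h3 : 1 + kap * nu + 27 / 5 * nu ^ 2 ≤ Real.exp (kap * nu + 27 / 5 * nu ^ 2) := by
      have := Real.add_one_le_exp (kap * nu + 27 / 5 * nu ^ 2)
      linarith
    refine h3.trans ?_
    rw [Real.exp_add]
    refine mul_le_mul_of_nonneg_left ?_ (Real.exp_pos _).le
    have e : 27 / 5 * nu ^ 2 = (27 / 5 * nu) * nu := by ring
    rw [e, Real.exp_mul]
    refine Real.rpow_le_rpow (Real.exp_pos _).le ?_ h0
    have h4 := exp_conv (x := 27 / 5 * nu) (by linarith) (by linarith)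
    linarith
  rcases le_total nu 1 with h2 | h2
  · refine ((hM nu h0).2.1 h2).trans ?_
    rw [hr]
    refine Real.one_le_rpow ?_ h0
    nlinarith
  · refine ((hM nu h0).2.2).trans ?_
    rw [hr]
    refine Real.rpow_le_rpow (by linarith) ?_ h0
    nlinarith

end Pool.Agent.W2helper68.GP
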